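import Pool.Agent.Q194.AP.Stmts
import Pool.Agent.Q194.AP.Stmts2
import Pool.Agent.Q194.AP.Sup
import Pool.Agent.Q194.AP.Bil
import Pool.Agent.Q194.AP.Sys
import Pool.Agent.Q194.AP.W
import Pool.Agent.Q194.AP.B
import Pool.Agent.Q194.AP.RL
import Pool.Agent.Q194.AP.Jordan
import Pool.Agent.Q194.AP.RMK
import Pool.Agent.Q194.AP.Sing
import Pool.Agent.Q194.AP.Disj
import Pool.Agent.Q194.AP.Fam
import Pool.Agent.Q194.AP.HH
import Pool.Agent.Q194.AP.A
import Pool.Agent.Q194.AP.Bv
import Pool.Agent.Q194.AP.BvN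
import Pool.Agent.Q194.AP.G
import Pool.Agent.Q194.AP.MajN
import Pool.Agent.Q194.AP.ApepD
import Pool.Agent.Q194.AP.Mem194
import Pool.Agent.Q194.AP.MemD
import Pool.Agent.Q194.AP.T
import Pool.Agent.Q194.AP.Dec
import Pool.Agent.Q194.AP.DecG
import Pool.Agent.Q194.AP.ExtC
import Pool.Agent.Q194.AP.Half
import Pool.Agent.Q194.AP.Key
import Pool.Agent.Q194.AP.BP
import Pool.Agent.Q194.AP.BB
import Pool.Agent.Q194.AP.KeyD
import Pool.Agent.Q194.AP.NotD
import Pool.Agent.Q194.AP.Ren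
import Pool.Agent.Q194.AP.Fin

/-!
# Almost preserved extreme points are not stable under projective tensor products, even for unit balls

MP_3d49e4_an, Q2 (and so Q1, with `C = D` the unit ball): if `x₀` is an almost preserved extreme point of the unit ball of
`X` and `y₀` one of the unit ball of `Y`, then `x₀ ⊗ y₀` need not be an almost preserved extreme point of the unit ball
of the projective tensor product of `X` and `Y`.
-/

set_option autoImplicit false
set_option maxSynthPendingDepth 3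

namespace Pool.Agent.Results.MP_3d49e4_an.NotTensorStable

open Q194.AP

/-- There are a Banach space `X`, an almost preserved extreme point `x₀` of its closed unit ball `B` such that `z₀ = x₀ ⊗ x₀`
is not an almost preserved extreme point of the closed convex hull of `B ⊗ B` (the unit ball of the projective tensor
product) -/
theorem result : ∃ (X : Type) (_ : NormedAddCommGroup X) (_ : NormedSpace ℝ X) (_ : CompleteSpace X) (x0 : X)
    (z0 : Fin.PTS X X), Fin.IsT z0 x0 x0 ∧ APEP (Metric.closedBall (0 : X) 1) x0 ∧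
      ¬ APEP (Fin.hullT (Metric.closedBall (0 : X) 1) (Metric.closedBall (0 : X) 1)) z0 := by
  suffices hG : Goal2 by
    obtain ⟨X, j1, j2, j3, x0, hx, hn⟩ := Q194.AP.Ren.main hG
    obtain ⟨z0, hz, hn'⟩ := Q194.AP.Fin.main (Metric.closedBall (0 : X) 1) x0 hn
    exact ⟨X, j1, j2, j3, x0, z0, hz, hx, hn'⟩
  obtain ⟨Ω, i1, i2, i3, i4, i5, i6, i7, m, i8, ⟨Y⟩⟩ := Q194.AP.Sys.main
  have hHH := Q194.AP.HH.main Ω m
  have hRL := Q194.AP.RL.main Ω m
  have hDisj := Q194.AP.Disj.main Ω m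
  have hFam := Q194.AP.Fam.main Ω m hRL hDisj
  have hSing := Q194.AP.Sing.main Ω m
  have hA := Q194.AP.A.main Ω m Q194.AP.Jordan.main Q194.AP.RMK.main hSing hFam hHH
  have hBv := Q194.AP.Bv.main Ω m
  have hBvN := Q194.AP.BvN.main Ω m
  have hG := Q194.AP.G.main Ω m
  have hB := Q194.AP.B.main Ω m Q194.AP.W.main
  have hMaj := Q194.AP.MajN.main Ω m hB hA hBv hBvN hG hHH
  have hMem := Q194.AP.Mem194.main Ω m hA hHH hBv
  have hMemD := Q194.AP.MemD.main Ω m hMem
  have hApep := Q194.AP.ApepD.main Ω m hMaj hMem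
  have hDec := Q194.AP.Dec.main Ω m
  have hDecG := Q194.AP.DecG.main Ω m
  have hExt := Q194.AP.ExtC.main Ω
  have hHalf := Q194.AP.Half.main Ω m hDec hHH
  have hKey := Q194.AP.Key.main Ω m hHalf
  have hBP := Q194.AP.BP.main Ω m hDecG hHH
  have hBB := Q194.AP.BB.main Ω m hDecG hExt
  have hKeyD := Q194.AP.KeyD.main Ω m hKey hBP hBB
  have hNot := Q194.AP.NotD.main Ω m Q194.AP.Sup.main Q194.AP.Bil.main (Q194.AP.T.main Ω m) hKeyD
  obtain ⟨-, -, h1, h2, h3, h4, h5⟩ := hMemD Y
  exact ⟨V Y, inferInstance, inferInstance, inferInstance, DD Y, x0 Y, h1, h2, h3, h4, ⟨1 / 2, by norm_num, h5⟩,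
    hApep Y, hNot Y⟩

end Pool.Agent.Results.MP_3d49e4_an.NotTensorStable
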